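import Pool.Agent.R818.Functors.Skel3

/-!
# Finitely square-skeletal functors are skeletal
-/

namespace Pool.Agent.Results.MP_7a056a_gt.SquareSkeletalSkeletal

open Pool.Agent.R818.Functors

theorem result : ∀ F : CFun, Epimorphic F → CommutesWithLimits F → PreservesFinitePreimages F →
    FinitelySquareSkeletal F → SkeletalFunctor F :=
  fun _ h1 h2 h3 h4 => Skel.skeletal h1 h2 h3 h4

end Pool.Agent.Results.MP_7a056a_gt.SquareSkeletalSkeletal
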